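import Pool.Agent.Y518.BM.Many

/-!
# Boomerang subgroups without invariant random subgroups are dense in the perfect kernel

`NB G` is the set of the infinite boomerang subgroups of `G` whose orbit closure supports no
invariant random subgroup. Let `Γ` be a free group of rank `r`, `2 ≤ r ≤ ℵ₀`.

* If `r` is finite, the closure of `NB Γ` is the set of all subgroups of infinite index (the
  perfect kernel of the space of subgroups); if `r` is infinite, `NB Γ` is dense in the space of
  all subgroups.
* Every open set of subgroups that contains a subgroup of infinite index contains uncountably many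
  elements of `NB Γ` (in particular from uncountably many conjugacy classes). So every finitely
  generated subgroup of infinite index is contained in such subgroups, which may moreover avoid any
  given finite set of elements outside it.
* Every group that has a subgroup of finite index with a surjection onto `Γ` has uncountably many
  such subgroups.

The topology, the conjugation action, `IsBoomerang`, `IsIRS` and `orbitClosure` are those of the
starting library (`Pool.Agent.H338R3.SubTop`).
-/

set_option autoImplicit false

universe u v

namespace Pool.Agent.Results.MP_d9b86d_al.PerfectKernel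

open Filter MeasureTheory Topology Pool.Agent.H338R3

/-- The infinite boomerang subgroups whose orbit closure supports no invariant random subgroup. -/
def NB (G : Type u) [Group G] : Set (Subgroup G) :=
  {Δ | Infinite Δ ∧ IsBoomerang Δ ∧
    ¬ ∃ μ : Measure (Subgroup G), IsIRS μ ∧ μ (orbitClosure Δ) = 1}

theorem result (α : Type u) [Countable α] [Nontrivial α] :
    -- finite rank: the closure of `NB` is the perfect kernel
    (Finite α → closure (NB (FreeGroup α)) = {K | K.index = 0}) ∧
    -- infinite rank: `NB` is dense
    (Infinite α → closure (NB (FreeGroup α)) = Set.univ) ∧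
    -- uncountably many in every open set that contains a subgroup of infinite index
    (∀ U : Set (Subgroup (FreeGroup α)), IsOpen U → (∃ K ∈ U, K.index = 0) →
      ¬ (U ∩ NB (FreeGroup α)).Countable) ∧
    -- the same for any finite set of conditions on a subgroup of infinite index
    (∀ K : Subgroup (FreeGroup α), K.index = 0 → ∀ B : Finset (FreeGroup α),
      ¬ {Δ ∈ NB (FreeGroup α) | ∀ g ∈ B, (g ∈ Δ ↔ g ∈ K)}.Countable) ∧
    -- all groups that virtually surject onto the free group
    (∀ (G : Type v) [Group G] (L : Subgroup G), L.FiniteIndex →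
      ∀ π : L →* FreeGroup α, Function.Surjective π → ¬ (NB G).Countable) := by
  classical
  have hNB : ∀ (G : Type u) [Group G], NB G = Pool.Agent.Y518.BM.NB G := fun _ _ => rfl
  have hopen : ∀ U : Set (Subgroup (FreeGroup α)), IsOpen U → (∃ K ∈ U, K.index = 0) →
      ¬ (U ∩ NB (FreeGroup α)).Countable := by
    rintro U hU ⟨K, hKU, hK⟩
    exact Pool.Agent.Y518.BM.not_countable_inter hU hKU hK
  refine ⟨?_, ?_, hopen, ?_, ?_⟩
  · intro hα
    apply Set.Subset.antisymm
    · refine closure_minimal ?_ Pool.Agent.Y518.BM.isClosed_index_zero
      intro K hK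
      exact Pool.Agent.Y518.BM.index_eq_zero_of_mem_NB hK
    · intro K hK
      exact Pool.Agent.Y518.BM.mem_closure_of_near fun B =>
        Pool.Agent.Y518.BM.exists_near K hK B
  · intro hα
    refine Set.eq_univ_of_forall fun K => ?_
    refine Pool.Agent.Y518.BM.mem_closure_of_near fun B => ?_
    let K0 : Subgroup (FreeGroup α) := Subgroup.closure ((K : Set (FreeGroup α)) ∩ B)
    have hK0 : K0.index = 0 :=
      Pool.Agent.Y518.BM.index_closure _ (B.finite_toSet.subset Set.inter_subset_right)
    obtain ⟨Δ, h1, h2⟩ := Pool.Agent.Y518.BM.exists_near K0 hK0 B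
    refine ⟨Δ, h1, fun g hg => (h2 g hg).trans ⟨fun h => ?_, fun h => ?_⟩⟩
    · have hle : K0 ≤ K := by
        rw [Subgroup.closure_le]
        exact Set.inter_subset_left
      exact hle h
    · exact Subgroup.subset_closure ⟨h, hg⟩
  · intro K hK B
    have hU : IsOpen {Δ : Subgroup (FreeGroup α) | ∀ g ∈ B, (g ∈ Δ ↔ g ∈ K)} := by
      have h1 : {Δ : Subgroup (FreeGroup α) | ∀ g ∈ B, (g ∈ Δ ↔ g ∈ K)} =
          ⋂ g : B, {Δ : Subgroup (FreeGroup α) | ((g : FreeGroup α) ∈ Δ ↔ (g : FreeGroup α) ∈ K)} := by
        ext Δ
        simp
      rw [h1]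
      refine isOpen_iInter_of_finite fun g => ?_
      by_cases hg : (g : FreeGroup α) ∈ K
      · simp only [hg, iff_true]
        exact (isClopen_mem _).isOpen
      · simp only [hg, iff_false]
        exact (isClopen_mem _).compl.isOpen
    intro hc
    refine hopen _ hU ⟨K, fun g _ => Iff.rfl, hK⟩ (hc.mono ?_)
    rintro Δ ⟨h1, h2⟩
    exact ⟨h2, h1⟩
  · intro G _ L hL π hπ hc
    have hbot : (⊥ : Subgroup (FreeGroup α)).index = 0 := by
      rw [Subgroup.index_bot, Nat.card_eq_zero]
      right
      infer_instance
    refine hopen Set.univ isOpen_univ ⟨⊥, Set.mem_univ _, hbot⟩ ?_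
    rw [Set.univ_inter]
    refine Set.MapsTo.countable_of_injOn (f := fun D => Pool.Agent.Y518.BM.lift L π D)
      (t := NB G) ?_ ?_ hc
    · intro D hD
      exact Pool.Agent.Y518.BM.lift_mem_NB hπ hD
    · intro D _ D' _ h
      have h1 := congrArg (Pool.Agent.Y518.BM.proj L π) h
      simpa [Pool.Agent.Y518.BM.proj_lift hπ] using h1

end Pool.Agent.Results.MP_d9b86d_al.PerfectKernel
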